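import Pool.Agent.H.MP_40d550_an.C

namespace Pool.Agent.Results.MP_63eeb0_an.Yes

theorem result : ∃ (X : Type) (_ : NormedAddCommGroup X) (_ : NormedSpace ℝ X)
    (_ : CompleteSpace X),
    (∀ (F : Type) [NormedAddCommGroup F] [NormedSpace ℝ F] [FiniteDimensional ℝ F]
      (E : Submodule ℝ F) (i : E →ₗᵢ[ℝ] X) (ε : ℝ), 0 < ε → ∃ f : F →ₗ[ℝ] X,
        (∀ x : E, f x = i x) ∧ ∀ y, (1 + ε)⁻¹ * ‖y‖ ≤ ‖f y‖ ∧ ‖f y‖ ≤ (1 + ε) * ‖y‖) ∧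
    IsLeast {κ | ∃ D : Set X, Dense D ∧ Cardinal.mk D = κ} (Cardinal.aleph 1) ∧
    ∃ (l : Ordinal.{0}) (e : Set.Iio l → X) (P : Ordinal.{0} → X →L[ℝ] X), (∀ a, e a ≠ 0) ∧
      Dense (Submodule.span ℝ (Set.range e) : Set X) ∧
      (∀ β ≤ l, ‖P β‖ ≤ 1 ∧ (∀ x, P β (P β x) = P β x) ∧
        ∀ a : Set.Iio l, (a.1 < β → P β (e a) = e a) ∧ (β ≤ a.1 → P β (e a) = 0)) ∧
      (∀ x, P l x = x) ∧ ∀ x, ContinuousOn (fun β => P β x) (Set.Iic l) := by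
  obtain ⟨X, i1, i2, i3, u, h⟩ := Pool.Agent.H.MP_40d550_an.main
  exact ⟨X, i1, i2, i3, h.gur, h.dens (by simp), _, h.basis⟩

end Pool.Agent.Results.MP_63eeb0_an.Yes
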